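import Pool.Agent.Helper52.SM.Goals
import Pool.Agent.Helper31.CS.TDL

set_option autoImplicit false

/-!
# Project SM (MP_34c247_lc), packet LGT: light labels are rare
-/

namespace Pool.Agent.Helper30.SM

open Pool.Agent.Helper81.CC Pool.Agent.Helper78.DT Pool.Agent.Helper51.ZP Pool.Agent.Helper65.CS
open Pool.Agent.Helper52.SM
open Pool.Agent.Helper78

open scoped Classical

theorem evg_first {β : Type} (d : β) (b : ℕ → Bool) (G : List (List (ℕ × Bool) × β)) :
    evg d b G = d ∨ ∃ i, ∃ h : i < G.length, (∀ p ∈ (G[i]'h).1, b p.1 = p.2) ∧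
      ∀ j, ∀ hj : j < i, ¬ ∀ p ∈ (G[j]'(hj.trans h)).1, b p.1 = p.2 := by
  induction G with
  | nil => left; rfl
  | cons e G ih =>
    by_cases h0 : ∀ p ∈ e.1, b p.1 = p.2
    · right
      refine ⟨0, by simp, by simpa using h0, ?_⟩
      intro j hj
      omega
    · rw [evg, if_neg h0]
      rcases ih with h | ⟨i, hi, h1, h2⟩
      · left; exact h
      · right
        refine ⟨i + 1, by simpa using hi, by simpa using h1, ?_⟩
        intro j hj
        cases j with
        | zero => simpa using h0
        | succ j =>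
          have := h2 j (by omega)
          simpa using this

theorem evg_of_first {β : Type} (d : β) (b : ℕ → Bool) (G : List (List (ℕ × Bool) × β)) :
    ∀ i, ∀ h : i < G.length, (∀ p ∈ (G[i]'h).1, b p.1 = p.2) →
      (∀ j, ∀ hj : j < i, ¬ ∀ p ∈ (G[j]'(hj.trans h)).1, b p.1 = p.2) →
      evg d b G = (G[i]'h).2 := by
  induction G with
  | nil => intro i h; simp at h
  | cons e G ih =>
    intro i h h1 h2
    cases i with
    | zero =>
      have h0 : ∀ p ∈ e.1, b p.1 = p.2 := by simpa using h1
      rw [evg, if_pos h0]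
      simp
    | succ i =>
      have h0 : ¬ ∀ p ∈ e.1, b p.1 = p.2 := by
        have := h2 0 (by omega)
        simpa using this
      rw [evg, if_neg h0]
      have hi : i < G.length := by simpa using h
      have := ih i hi (by simpa using h1) (by
        intro j hj
        have := h2 (j + 1) (by omega)
        simpa using this)
      rw [this]
      simp

theorem lgt (hK : KeyStmt) : LgtStmt := by
  intro β m W G d B ε hG hε hB hd
  set f : DL (Fin m) := tdl m (G.map fun e => (e.1, B e.2)) with hf
  have hlen : f.length = G.length := by simp [hf, tdl]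
  have hget : ∀ i (h : i < G.length), (f[i]'(hlen ▸ h)).1 =
      Finset.univ.filter fun p : Fin m × Bool => ((p.1 : ℕ), p.2) ∈ (G[i]'h).1 := by
    intro i h
    simp [hf, tdl]
  have hsat : ∀ i (h : i < G.length) (y : Fin m → Bool), Sat (f[i]'(hlen ▸ h)).1 y ↔
      ∀ p ∈ (G[i]'h).1, PM.coins y p.1 = p.2 := by
    intro i h y
    rw [hget i h]
    exact Pool.Agent.Helper31.CS.sat_iff _
      (fun p hp => ((hG _ (List.getElem_mem h)).2.2 p hp).1) y
  have hwid : Wid W f := by
    intro e he
    obtain ⟨e', he', rfl⟩ := List.mem_map.mp he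
    obtain ⟨e'', he'', rfl⟩ := List.mem_map.mp he'
    exact (Pool.Agent.Helper31.CS.card_lits m e''.1).trans (hG e'' he'').2.1
  have hkey := hK (Fin m) (1 / 2) W f (by norm_num) (by norm_num) hwid
  have h4 : ((2 : ℝ) / (1 / 2)) ^ W = 4 ^ W := by norm_num
  rw [h4] at hkey
  -- the label of the term number `i`
  have hfirst : ∀ (i : Fin f.length) (y : Fin m → Bool), First f i y →
      evg d (PM.coins y) G = (G[i.1]'(hlen ▸ i.2)).2 := by
    intro i y h
    have hi : i.1 < G.length := hlen ▸ i.2
    refine evg_of_first d (PM.coins y) G i.1 hi ?_ ?_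
    · exact (hsat i.1 hi y).mp h.1
    · intro j hj
      have := h.2 ⟨j, hj.trans i.2⟩ (by simpa [Fin.lt_def] using hj)
      exact fun h' => this ((hsat j (hj.trans hi) y).mpr h')
  have h1 : pr (fun y : Fin m → Bool => B (evg d (PM.coins y) G) = true) ≤
      ∑ i : Fin f.length, pr (fun y => First f i y ∧ B (G[i.1]'(hlen ▸ i.2)).2 = true) := by
    refine le_trans (pr_mono ?_) (pr_exists_le Finset.univ
      (fun (i : Fin f.length) y => First f i y ∧ B (G[i.1]'(hlen ▸ i.2)).2 = true))
    intro y hy
    rcases evg_first d (PM.coins y) G with h | ⟨i, hi, h1, h2⟩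
    · rw [h, hd] at hy
      simp at hy
    · have hi' : i < f.length := hlen ▸ hi
      have hF : First f ⟨i, hi'⟩ y := by
        refine ⟨(hsat i hi y).mpr h1, ?_⟩
        intro j hj
        have hj' : j.1 < i := by simpa [Fin.lt_def] using hj
        exact fun h' => h2 j.1 hj' ((hsat j.1 (hj'.trans hi) y).mp h')
      refine ⟨⟨i, hi'⟩, Finset.mem_univ _, hF, ?_⟩
      have := hfirst ⟨i, hi'⟩ y hF
      rw [this] at hy
      exact hy
  refine h1.trans ?_
  calc ∑ i : Fin f.length, pr (fun y => First f i y ∧ B (G[i.1]'(hlen ▸ i.2)).2 = true)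
      ≤ ∑ i : Fin f.length, √ε * pr (First f i) ^ (1 / 2 : ℝ) := by
        refine Finset.sum_le_sum fun i _ => ?_
        by_cases hb : B (G[i.1]'(hlen ▸ i.2)).2 = true
        · have hp : pr (First f i) ≤ ε :=
            (pr_mono fun y hy => hfirst i y hy).trans (hB _ hb)
          have h0 : 0 ≤ pr (First f i) := pr_nonneg _
          calc pr (fun y => First f i y ∧ B (G[i.1]'(hlen ▸ i.2)).2 = true)
              ≤ pr (First f i) := pr_mono fun y hy => hy.1
            _ = √(pr (First f i)) * √(pr (First f i)) := (Real.mul_self_sqrt h0).symm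
            _ ≤ √ε * √(pr (First f i)) :=
                mul_le_mul_of_nonneg_right (Real.sqrt_le_sqrt hp) (Real.sqrt_nonneg _)
            _ = √ε * pr (First f i) ^ (1 / 2 : ℝ) := by rw [Real.sqrt_eq_rpow (pr (First f i))]
        · have hz : pr (fun y : Fin m → Bool =>
              First f i y ∧ B (G[i.1]'(hlen ▸ i.2)).2 = true) ≤ pr (fun _ : Fin m → Bool => False) :=
            pr_mono fun y hy => hb hy.2
          have hz' : pr (fun _ : Fin m → Bool => False) = 0 := by
            simp [pr, av]
          rw [hz'] at hz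
          exact hz.trans (mul_nonneg (Real.sqrt_nonneg _) (Real.rpow_nonneg (pr_nonneg _) _))
    _ = √ε * ∑ i : Fin f.length, pr (First f i) ^ (1 / 2 : ℝ) := by rw [Finset.mul_sum]
    _ ≤ √ε * 4 ^ W := mul_le_mul_of_nonneg_left hkey (Real.sqrt_nonneg _)

end Pool.Agent.Helper30.SM
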